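import Pool.Agent.H31.NV.Pf

/-!
# The velocities of the coordinate `c 2`

`dvel_two`: relative to the direction `v`, they are affine in the velocity of `c 0`.
-/

set_option autoImplicit false

namespace Pool.NVX

open Finset Real MvPolynomial
open Pool.Agent.H49.Ent Pool.Agent.H32.Dense Pool.STK Pool.KA Pool.KSAT Pool.K2S Pool.PB Pool.S6C
open Pool.GEN Pool.CHT
open Pool.D2R (dd hs)
open Pool.SHR (dir)
open Pool.PB.Trl (rt rt_mem t_rt)

/-- [Q5] **The velocities of the coordinate `c 2`**, relative to the direction `v`. -/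
theorem dvel_two (D : ℕ) : ∃ C : ℕ, ∀ {m J : ℕ} {F : Fam m J} {c : ℕ → Fin m} {a n : ℕ}
    {g : ℕ → ℕ} {B : F.Ω → Prop} {G : PtT F → ℕ → MvPolynomial (Option (Fin m)) ℝ}
    {v : PtT F → Fin m → ℝ} {ζ E : ℝ}, Set.InjOn c (Set.Iio 2) →
    (∀ y l, (G y l).totalDegree ≤ D) → (∀ y l, DepC c l (G y l)) → Pth F c 3 a n g B G →
    (∀ ω, B ω → v (ptr F J ω) (c 0) = 0 ∧ v (ptr F J ω) (c 1) = 1) →
    (∀ ω, B ω → ∃ p q : ℝ, ∀ ν, B ν → ptr F J ν = ptr F J ω →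
      |bd F ν (some (c 1)) - (p + q * bd F ν (some (c 0)))| ≤ ζ) →
    (∀ ω, B ω → |eval (bt F ω) (dir (v (ptr F J ω)) (G (ptr F J ω) 2)) -
      v (ptr F J ω) (c 2)| ≤ E) →
    ∀ ω, B ω → ∃ p q : ℝ, ∀ ν, B ν → ptr F J ν = ptr F J ω →
      |(bd F ν (some (c 2)) - v (ptr F J ω) (c 2) * bd F ν (some (c 1))) -
        (p + q * bd F ν (some (c 0)))| ≤ 2 ^ (a + n + C) / 2 ^ g 2 + E * ζ := by
  classical
  obtain ⟨C₂, hC₂, hvel⟩ := vel_one D
  obtain ⟨c₂, hc₂⟩ := pow_unbounded_of_one_lt C₂ (one_lt_two (α := ℝ))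
  refine ⟨c₂, ?_⟩
  intro m J F c a n g B G v ζ E hc hdG hdep hpth hv01 hz hE ω hω
  obtain ⟨p₁, q₁, hpq⟩ := hz ω hω
  obtain ⟨d0, hd0⟩ : ∃ d0, d0 = eval (bt F ω) (pderiv none (G (ptr F J ω) 2)) := ⟨_, rfl⟩
  obtain ⟨d1, hd1⟩ : ∃ d1, d1 = eval (bt F ω) (pderiv (some (c 0)) (G (ptr F J ω) 2)) := ⟨_, rfl⟩
  obtain ⟨d2, hd2⟩ : ∃ d2, d2 = eval (bt F ω) (pderiv (some (c 1)) (G (ptr F J ω) 2)) := ⟨_, rfl⟩
  obtain ⟨v0, v1⟩ := hv01 ω hω
  have hne : c 0 ≠ c 1 := fun h => absurd (hc (show (0 : ℕ) < 2 by norm_num)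
    (show (1 : ℕ) < 2 by norm_num) h) (by norm_num)
  have hzero : ∀ j : Fin m, j ≠ c 0 → j ≠ c 1 →
      eval (bt F ω) (pderiv (some j) (G (ptr F J ω) 2)) = 0 := by
    intro j h0 h1
    refine Pool.D2R.pd_zero (hdep (ptr F J ω) 2) (fun i hi h => ?_) _
    rcases (show i = 0 ∨ i = 1 by omega) with h' | h'
    · rw [h'] at h
      exact h0 h.symm
    · rw [h'] at h
      exact h1 h.symm
  have hdir : eval (bt F ω) (dir (v (ptr F J ω)) (G (ptr F J ω) 2)) = d2 := by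
    unfold dir
    rw [map_sum, Finset.sum_eq_add (c 0) (c 1) hne]
    · rw [map_mul, map_mul, eval_C, eval_C, v0, v1, zero_mul, zero_add, one_mul, hd2]
    · intro j _ hj
      rw [map_mul, hzero j hj.1 hj.2, mul_zero]
    · intro h
      exact absurd (Finset.mem_univ _) h
    · intro h
      exact absurd (Finset.mem_univ _) h
  have hE1 := hE ω hω
  rw [hdir] at hE1
  have hE0 : 0 ≤ E := (abs_nonneg _).trans hE1
  refine ⟨d0 + (d2 - v (ptr F J ω) (c 2)) * p₁, d1 + (d2 - v (ptr F J ω) (c 2)) * q₁,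
    fun ν hν hpt => ?_⟩
  have hrt := rt_mem F a ν
  have h1 := hvel (G (ptr F J ω) 2) (bt F ω) (vl F a ν) (some (c 2)) (rt F a ν) (2 ^ n / 2 ^ g 2)
    (hdG _ 2) hrt.1 hrt.2 fun s h0 h1 => hpth ω ν hω hν hpt.symm s h0 h1 2 (by norm_num)
  have hdd : dd (G (ptr F J ω) 2) (bt F ω) (vl F a ν) =
      1 / 2 ^ a * (d0 + d1 * bd F ν (some (c 0)) + d2 * bd F ν (some (c 1))) := by
    unfold dd
    rw [Fintype.sum_option, vl_none, Finset.sum_eq_add (c 0) (c 1) hne]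
    · have e1 : vl F a ν (some (c 0)) = 1 / 2 ^ a * bd F ν (some (c 0)) := rfl
      have e2 : vl F a ν (some (c 1)) = 1 / 2 ^ a * bd F ν (some (c 1)) := rfl
      rw [e1, e2, hd0, hd1, hd2]
      ring
    · intro j _ hj
      rw [hzero j hj.1 hj.2, zero_mul]
    · intro h
      exact absurd (Finset.mem_univ _) h
    · intro h
      exact absurd (Finset.mem_univ _) h
  have e2 : vl F a ν (some (c 2)) = 1 / 2 ^ a * bd F ν (some (c 2)) := rfl
  rw [hdd, e2, ← mul_sub, abs_mul, abs_of_pos (show (0 : ℝ) < 1 / 2 ^ a by positivity),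
    one_div_mul_eq_div, div_le_iff₀ (by positivity)] at h1
  have h3 := hpq ν hν hpt
  have key : (bd F ν (some (c 2)) - v (ptr F J ω) (c 2) * bd F ν (some (c 1))) -
      (d0 + (d2 - v (ptr F J ω) (c 2)) * p₁ + (d1 + (d2 - v (ptr F J ω) (c 2)) * q₁) *
        bd F ν (some (c 0))) =
      (bd F ν (some (c 2)) - (d0 + d1 * bd F ν (some (c 0)) + d2 * bd F ν (some (c 1)))) +
      (d2 - v (ptr F J ω) (c 2)) * (bd F ν (some (c 1)) - (p₁ + q₁ * bd F ν (some (c 0)))) := by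
    ring
  rw [key]
  refine (abs_add_le _ _).trans (add_le_add (h1.trans ?_) ?_)
  · have e3 : (2 : ℝ) ^ (a + n + c₂) / 2 ^ g 2 = 2 ^ c₂ * (2 ^ n / 2 ^ g 2) * 2 ^ a := by
      rw [pow_add, pow_add]
      ring
    rw [e3]
    exact mul_le_mul_of_nonneg_right (mul_le_mul_of_nonneg_right hc₂.le (by positivity))
      (by positivity)
  · rw [abs_mul]
    exact mul_le_mul hE1 h3 (abs_nonneg _) hE0

end Pool.NVX
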