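import Pool.Agent.H80.NV.Bal
import Pool.Agent.H23.D2.Two
import Pool.Agent.H23.D2.Gen

/-!
# The lines through one exact point stay in the natural box; the deep velocities

`pth_fam`: Remez for the own heights, then `path_pt`. `dvel`: the velocities of the lines through one
exact point of a deep ball.
-/

set_option autoImplicit false

namespace Pool.NVX

open Finset Real MvPolynomial
open Pool.Agent.H49.Ent Pool.Agent.H32.Dense Pool.STK Pool.KA Pool.KSAT Pool.K2S Pool.PB Pool.S6C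
open Pool.GEN Pool.CHT
open Pool.D2R (dd hs)
open Pool.PB.Trl (rt rt_mem t_rt)
open Pool.FLF (Fam.sub)

variable {m J : ℕ}

/-- [P2] **The lines through one exact point stay in the natural box**, on half of the event. -/
theorem pth_fam (m D n : ℕ) : ∃ (C : ℕ) (C₁ : ℝ), 1 ≤ C₁ ∧ ∀ {J : ℕ} {F : Fam m J}
    {c : ℕ → Fin m} {a e x : ℕ} {g : ℕ → ℕ} {A : F.Ω → Prop}
    {G : PtT F → ℕ → MvPolynomial (Option (Fin m)) ℝ}
    {H : LnT F → ℕ → MvPolynomial (Option (Fin m)) ℝ} {θ : ℝ} (hA : 0 < Pe F.p A),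
    Set.InjOn c (Set.Iio n) → a ≤ J → ChOK F c n (fun _ => D) a a e g A G H →
    (∀ l < n, e + g l + C * (x + 1) ≤ J) → (Fam.sub F A hA).Tm θ → 0 ≤ θ →
    C₁ * (θ + 1) ≤ ((J : ℝ) - a) * Real.log 2 → C₁ * (θ + 1) ≤ x →
    ∃ B : F.Ω → Prop, Sub B A ∧ Pe F.p A / 2 ≤ Pe F.p B ∧ Pth F c n a (C * (x + 1)) g B G := by
  obtain ⟨C₂, hC₂, hpt⟩ := path_pt m D n
  obtain ⟨C₃, hC₃, hrm⟩ := Pool.D2R.rem_fam m (D + 1) n
  refine ⟨2 * C₂, 2 * C₃, by linarith, ?_⟩
  intro J F c a e x g A G H θ hA hc haJ hch hJ hTm hθ hCJ hCx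
  have hθ1 : 0 ≤ θ + 1 := by linarith
  have hCθ : 0 ≤ C₃ * (θ + 1) := mul_nonneg (by linarith) hθ1
  obtain ⟨B, b1, b2, b3⟩ := hrm J F A hA a (fun l s => dv a (fun s _ => H s l) (c l) s)
    (fun l => 2 / 2 ^ g l) θ haJ (fun l _ s => natDegree_dv a
      (G := fun s (_ : Fin m) => H s l) (fun s _ => (hch.degH s l).trans (by omega)) (c l) s)
    (fun l _ => by positivity) hθ hTm
    (by linarith) (fun ω hω l hl => by
      show |(dv a (fun s _ => H s l) (c l) (slam F a ω)).eval (rt F a ω)| ≤ _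
      rw [eval_dv F haJ (fun s _ => H s l) ω (c l)]
      have h1 := hch.pos ω hω l hl
      have h2 := hch.agr ω hω l hl _ (hch.self hω hl.le)
      have e1 : F.x ω (c l) - eval (bt F ω) (H (slam F a ω) l) =
          (F.x ω (c l) - eval (bt F ω) (G (ptr F J ω) l)) +
          (eval (bt F ω) (G (ptr F J ω) l) - eval (bt F ω) (H (slam F a ω) l)) := by ring
      rw [e1]
      refine (abs_add_le _ _).trans ((add_le_add h1 h2).trans (le_of_eq ?_))
      ring)
  refine ⟨B, b1, b2, ?_⟩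
  have hexp : Real.exp (C₃ * (θ + 1)) * 2 ≤ 2 ^ (x + 1) := by
    have h1 : Real.exp (C₃ * (θ + 1)) ≤ 2 ^ x := by
      have e1 : (2 : ℝ) ^ x = Real.exp (x * Real.log 2) := by
        rw [mul_comm, Real.exp_mul, Real.exp_log (by norm_num), Real.rpow_natCast]
      rw [e1]
      refine Real.exp_le_exp.mpr ?_
      have h2 : (1 : ℝ) / 2 ≤ Real.log 2 := by
        have := Real.log_two_gt_d9
        linarith
      have h3 : (0 : ℝ) ≤ x := Nat.cast_nonneg x
      nlinarith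
    rw [pow_succ]
    linarith
  intro ω ν hω hν hpr s hs0 hs1 l hl
  have h1 := hpt hc haJ hch (k := x + 1) (fun l hl => by
    have := hJ l hl
    have e1 : C₂ * (x + 1 + 1) ≤ 2 * C₂ * (x + 1) := by nlinarith
    omega) ω ν (b1 ω hω) (b1 ν hν) hpr (fun l hl τ hτ => by
      refine (b3 ν hν l hl τ hτ).trans ?_
      rw [← mul_div_assoc]
      exact div_le_div_of_nonneg_right hexp (by positivity)) s hs0 hs1 l hl
  refine h1.trans (div_le_div_of_nonneg_right (pow_le_pow_right₀ (by norm_num) ?_)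
    (by positivity))
  nlinarith

/-- [P3] **The deep velocities**. -/
theorem dvel (D : ℕ) : ∃ C : ℕ, ∀ {m J : ℕ} {F : Fam m J} {c : ℕ → Fin m} {a n : ℕ} {g : ℕ → ℕ}
    {B : F.Ω → Prop} {G : PtT F → ℕ → MvPolynomial (Option (Fin m)) ℝ},
    (∀ y l, (G y l).totalDegree ≤ D) → (∀ y l, DepC c l (G y l)) → Pth F c 2 a n g B G →
    ∀ ω, B ω → ∃ p q : ℝ, ∀ ν, B ν → ptr F J ν = ptr F J ω →
      |bd F ν (some (c 1)) - (p + q * bd F ν (some (c 0)))| ≤ 2 ^ (a + n + C) / 2 ^ g 1 := by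
  obtain ⟨C₂, hC₂, hvel⟩ := vel_one D
  obtain ⟨c₂, hc₂⟩ := pow_unbounded_of_one_lt C₂ (one_lt_two (α := ℝ))
  refine ⟨c₂, ?_⟩
  intro m J F c a n g B G hdG hdep hpth ω hω
  refine ⟨eval (bt F ω) (pderiv none (G (ptr F J ω) 1)),
    eval (bt F ω) (pderiv (some (c 0)) (G (ptr F J ω) 1)), fun ν hν hpt => ?_⟩
  have hrt := rt_mem F a ν
  have h1 := hvel (G (ptr F J ω) 1) (bt F ω) (vl F a ν) (some (c 1)) (rt F a ν) (2 ^ n / 2 ^ g 1)
    (hdG _ 1) hrt.1 hrt.2 fun s h0 h1 => hpth ω ν hω hν hpt.symm s h0 h1 1 (by norm_num)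
  have hdd : dd (G (ptr F J ω) 1) (bt F ω) (vl F a ν) =
      1 / 2 ^ a * (eval (bt F ω) (pderiv none (G (ptr F J ω) 1)) +
        eval (bt F ω) (pderiv (some (c 0)) (G (ptr F J ω) 1)) * bd F ν (some (c 0))) := by
    unfold dd
    rw [Fintype.sum_option, vl_none, Finset.sum_eq_single (c 0) (fun j _ hj => by
      rw [Pool.D2R.pd_zero (hdep (ptr F J ω) 1) (fun i hi h => hj (by
        have : i = 0 := by omega
        rw [← h, this])), zero_mul]) (fun h => absurd (Finset.mem_univ _) h)]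
    have e1 : vl F a ν (some (c 0)) = 1 / 2 ^ a * bd F ν (some (c 0)) := rfl
    rw [e1]
    ring
  have e2 : vl F a ν (some (c 1)) = 1 / 2 ^ a * bd F ν (some (c 1)) := rfl
  rw [hdd, e2, ← mul_sub, abs_mul, abs_of_pos (show (0 : ℝ) < 1 / 2 ^ a by positivity),
    one_div_mul_eq_div, div_le_iff₀ (by positivity)] at h1
  refine h1.trans ?_
  have e3 : (2 : ℝ) ^ (a + n + c₂) / 2 ^ g 1 = 2 ^ c₂ * (2 ^ n / 2 ^ g 1) * 2 ^ a := by
    rw [pow_add, pow_add]
    ring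
  rw [e3]
  exact mul_le_mul_of_nonneg_right (mul_le_mul_of_nonneg_right hc₂.le (by positivity))
    (by positivity)

end Pool.NVX
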