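import Pool.Agent.H31.F5.Plane
import Pool.Agent.H64.F5.Lip

/-!
# A polynomial which is affine along separated lines is affine on the plane
-/

set_option autoImplicit false

namespace Pool.NVX

open Finset Real MvPolynomial
open Pool.D2R (dd hs dd_sub der_one)
open Pool.F5 (lp eval_lp deg_lp der_lp plane_two)

variable {m : ℕ}

/-- The linear part. -/
noncomputable def lnr (G : MvPolynomial (Option (Fin m)) ℝ) (x : Option (Fin m) → ℝ) :
    MvPolynomial (Option (Fin m)) ℝ := ∑ o, C (eval x (pderiv o G)) * X o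

theorem dd_lnr (G : MvPolynomial (Option (Fin m)) ℝ) (x y W : Option (Fin m) → ℝ) :
    dd (lnr G x) y W = dd G x W := by
  classical
  unfold dd
  refine Finset.sum_congr rfl fun o _ => ?_
  congr 1
  unfold lnr
  rw [map_sum, map_sum, Finset.sum_eq_single o]
  · rw [pderiv_C_mul, pderiv_X_self, map_mul, eval_C, map_one, mul_one]
  · intro b _ hb
    rw [pderiv_C_mul, pderiv_X_of_ne hb, mul_zero, map_zero]
  · intro h
    exact absurd (Finset.mem_univ o) h

theorem deg_lnr (G : MvPolynomial (Option (Fin m)) ℝ) (x : Option (Fin m) → ℝ) :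
    (lnr G x).totalDegree ≤ 1 := by
  unfold lnr
  refine totalDegree_finsetSum_le fun o _ => ?_
  refine (totalDegree_mul _ _).trans ?_
  rw [totalDegree_C, totalDegree_X]

/-- [P1] **A polynomial which is affine along `D + 1` separated lines through `x` is affine on the
plane.** -/
theorem plane_aff (D : ℕ) (hD : 1 ≤ D) : ∃ C : ℝ, 1 ≤ C ∧ ∃ N : ℕ, ∀ {m : ℕ}
    (G : MvPolynomial (Option (Fin m)) ℝ) (x U₀ U₁ : Option (Fin m) → ℝ)
    (η s A B : Fin (D + 1) → ℝ) (R mu eps : ℝ), G.totalDegree ≤ D → 1 ≤ R → 0 < mu → mu ≤ 1 →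
    (∀ j, |η j| ≤ R) → (∀ j j', j ≠ j' → mu ≤ |η j - η j'|) → (∀ j, 0 ≤ s j ∧ s j ≤ 1) →
    (∀ j, ∀ τ : ℝ, -s j ≤ τ → τ ≤ 1 - s j →
      |eval (x + τ • (U₀ + η j • U₁)) G - (A j + τ * B j)| ≤ eps) →
    ∀ α β a b : ℝ, |α| ≤ R → |β| ≤ R → |a| ≤ R → |b| ≤ R →
      |dd G (x + α • U₀ + β • U₁) (a • U₀ + b • U₁) - dd G x (a • U₀ + b • U₁)| ≤
        C * (R / mu) ^ N * eps := by
  obtain ⟨C₁, hC₁, h1⟩ := der_one D
  obtain ⟨C₂, hC₂, N, h2⟩ := plane_two D
  have hDr : (1 : ℝ) ≤ D := by exact_mod_cast hD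
  have hDN : (1 : ℝ) ≤ (D : ℝ) ^ N := one_le_pow₀ hDr
  refine ⟨C₂ * (D : ℝ) ^ N * (2 * C₁), ?_, N, ?_⟩
  · have h3 : 1 ≤ C₂ * (D : ℝ) ^ N := one_le_mul_of_one_le_of_one_le hC₂ hDN
    exact one_le_mul_of_one_le_of_one_le h3 (by linarith)
  intro m G x U₀ U₁ η s A B R mu eps hG hR hmu hmu1 hη hsep hs h α β a b hα hβ ha hb
  have hD0 : (0 : ℝ) < D := by linarith
  have hQd : ∀ y W, dd (G - lnr G x) y W = dd G y W - dd G x W := by
    intro y W
    rw [dd_sub, dd_lnr]
  have hmu' : mu / D ≤ mu := div_le_self hmu.le hDr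
  -- the derivative along a line
  have key : ∀ j, ∀ τ : ℝ, -s j ≤ τ → τ ≤ 1 - s j →
      |dd G (x + τ • (U₀ + η j • U₁)) (U₀ + η j • U₁) - dd G x (U₀ + η j • U₁)| ≤
        2 * C₁ * eps := by
    intro j τ hτ0 hτ1
    obtain ⟨W, hW⟩ : ∃ W, W = U₀ + η j • U₁ := ⟨_, rfl⟩
    rw [← hW]
    obtain ⟨f, hf⟩ : ∃ f : Polynomial ℝ, f = lp G x W - (Polynomial.C (A j) +
        Polynomial.C (B j) * Polynomial.X) := ⟨_, rfl⟩
    have hfe : ∀ t : ℝ, f.eval t = eval (x + t • W) G - (A j + t * B j) := by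
      intro t
      rw [hf, Polynomial.eval_sub, eval_lp, Polynomial.eval_add, Polynomial.eval_mul,
        Polynomial.eval_C, Polynomial.eval_C, Polynomial.eval_X, mul_comm (B j)]
      rfl
    have hfd : ∀ t : ℝ, f.derivative.eval t = dd G (x + t • W) W - B j := by
      intro t
      rw [hf, Polynomial.derivative_sub, Polynomial.eval_sub, (der_lp G x W t).1]
      simp only [Polynomial.derivative_add, Polynomial.derivative_mul, Polynomial.derivative_C,
        Polynomial.derivative_X, zero_mul, mul_one, zero_add, Polynomial.eval_C]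
      rfl
    have hfdeg : f.natDegree ≤ D := by
      rw [hf]
      refine (Polynomial.natDegree_sub_le _ _).trans (max_le (deg_lp hG x W) ?_)
      refine (Polynomial.natDegree_add_le _ _).trans (max_le ?_ ?_)
      · rw [Polynomial.natDegree_C]
        exact Nat.zero_le _
      · exact (Polynomial.natDegree_C_mul_le _ _).trans (Polynomial.natDegree_X_le.trans hD)
    have hq : ∀ t : ℝ, (f.comp (Polynomial.X - Polynomial.C (s j))).eval t = f.eval (t - s j) := by
      intro t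
      rw [Polynomial.eval_comp, Polynomial.eval_sub, Polynomial.eval_X, Polynomial.eval_C]
    have hqd : ∀ t : ℝ, (f.comp (Polynomial.X - Polynomial.C (s j))).derivative.eval t =
        f.derivative.eval (t - s j) := by
      intro t
      rw [Polynomial.derivative_comp, Polynomial.eval_mul, Polynomial.derivative_sub,
        Polynomial.derivative_X, Polynomial.derivative_C, sub_zero, Polynomial.eval_one, one_mul,
        Polynomial.eval_comp, Polynomial.eval_sub, Polynomial.eval_X, Polynomial.eval_C]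
    have hqdeg : (f.comp (Polynomial.X - Polynomial.C (s j))).natDegree ≤ D := by
      refine Polynomial.natDegree_comp_le.trans ?_
      rw [Polynomial.natDegree_X_sub_C, mul_one]
      exact hfdeg
    have h3 := h1 (f.comp (Polynomial.X - Polynomial.C (s j))) eps hqdeg (fun t ht => by
      rw [hq, hfe, hW]
      exact h j (t - s j) (by linarith [ht.1]) (by linarith [ht.2]))
    have h4 := h3 (τ + s j) (abs_le.2 ⟨by linarith [(hs j).1], by linarith⟩)
    have h5 := h3 (s j) (abs_le.2 ⟨by linarith [(hs j).1], (hs j).2⟩)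
    rw [hqd, hfd] at h4 h5
    rw [add_sub_cancel_right] at h4
    rw [sub_self, zero_smul, add_zero] at h5
    have h6 : dd G (x + τ • W) W - dd G x W =
        (dd G (x + τ • W) W - B j) - (dd G x W - B j) := by ring
    rw [h6]
    refine (abs_sub _ _).trans ?_
    linarith
  have h7 := h2 (G - lnr G x) x U₀ U₁ η (fun j i => -s j + (i : ℕ) / D) R (mu / D)
    (2 * C₁ * eps) ?_ hR (div_pos hmu hD0) (hmu'.trans hmu1) hη
    (fun j j' hjj => hmu'.trans (hsep j j' hjj)) ?_ ?_ ?_ α β a b hα hβ ha hb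
  · rw [hQd] at h7
    refine h7.trans (le_of_eq ?_)
    rw [div_div_eq_mul_div, mul_div_right_comm, mul_pow]
    ring
  · refine (totalDegree_sub _ _).trans (max_le hG ((deg_lnr G x).trans hD))
  · intro j i
    have hi : ((i : ℕ) : ℝ) ≤ D := by exact_mod_cast Nat.le_of_lt_succ i.2
    have h8 : ((i : ℕ) : ℝ) / D ≤ 1 := (div_le_one hD0).2 hi
    have h9 : 0 ≤ ((i : ℕ) : ℝ) / D := by positivity
    exact abs_le.2 ⟨by linarith [(hs j).2], by linarith [(hs j).1]⟩
  · intro j i i' hii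
    have h8 : -s j + ((i : ℕ) : ℝ) / D - (-s j + ((i' : ℕ) : ℝ) / D) =
        (((i : ℕ) : ℝ) - ((i' : ℕ) : ℝ)) / D := by ring
    show mu / D ≤ |-s j + ((i : ℕ) : ℝ) / D - (-s j + ((i' : ℕ) : ℝ) / D)|
    rw [h8, abs_div, abs_of_pos hD0]
    refine div_le_div_of_nonneg_right ?_ hD0.le
    refine hmu1.trans ?_
    have h9 : ((i : ℕ) : ℤ) - ((i' : ℕ) : ℤ) ≠ 0 := by
      intro h10
      exact hii (Fin.ext (by omega))
    have h10 := Int.one_le_abs h9
    have h11 : ((1 : ℤ) : ℝ) ≤ ((|((i : ℕ) : ℤ) - ((i' : ℕ) : ℤ)| : ℤ) : ℝ) := by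
      exact_mod_cast h10
    push_cast at h11
    exact h11
  · intro j i
    rw [hQd]
    have hi : ((i : ℕ) : ℝ) ≤ D := by exact_mod_cast Nat.le_of_lt_succ i.2
    have h8 : ((i : ℕ) : ℝ) / D ≤ 1 := (div_le_one hD0).2 hi
    have h9 : 0 ≤ ((i : ℕ) : ℝ) / D := by positivity
    exact key j _ (by linarith) (by linarith)

end Pool.NVX
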