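import Pool.Agent.H39.NV.Star

/-!
# The first-order form of `star`

`star_one`: the first half of 39's proof of `star`.
-/

set_option autoImplicit false

namespace Pool.NVX

open Finset Real MvPolynomial
open Pool.Agent.H49.Ent Pool.Agent.H32.Dense Pool.STK Pool.KA Pool.KSAT Pool.K2S Pool.PB Pool.S6C
open Pool.GEN Pool.CHT
open Pool.D2R (dd hs)

/-- [Q2] **The first-order form of `star`** (the first half of 39's proof). -/
theorem star_one (D r : ℕ) : ∃ C : ℕ, ∀ {m : ℕ} {c : ℕ → Fin m}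
    {G : ℕ → MvPolynomial (Option (Fin m)) ℝ} {H : MvPolynomial (Option (Fin m)) ℝ} {g : ℕ → ℕ}
    {a i n : ℕ} {t δ e : ℝ} {x U₀ U₁ : Option (Fin m) → ℝ}, i ≤ r →
    Set.InjOn c (Set.Iio i) → (∀ l, (G l).totalDegree ≤ D) → (∀ l, DepC c l (G l)) →
    H.totalDegree ≤ D → DepC c i H → x none = t → U₀ none = 1 / 2 ^ a → U₁ none = 0 → 0 ≤ δ →
    (∀ b, NBx c G g a t i b → |eval b (G i) - eval b H| ≤ δ) →
    (∀ α β : ℝ, |α| ≤ 1 → |β| ≤ 1 → (∀ l < i, |(x + α • U₀ + β • U₁) (some (c l)) -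
      eval (x + α • U₀ + β • U₁) (G l)| ≤ 2 ^ n / 2 ^ g l) ∧
      |(x + α • U₀ + β • U₁) (some (c i)) - eval (x + α • U₀ + β • U₁) (G i)| ≤ e) →
    ∀ α : ℝ, |α| ≤ 1 → |U₁ (some (c i)) - dd H (x + α • U₀) U₁| ≤
      2 ^ C * (e + 2 ^ (C * (n + 1)) * δ) := by
  classical
  obtain ⟨c₀, D₁, -, hdil⟩ := nbx_dil (r + 1) (fun _ => D)
  obtain ⟨K, hK, hder⟩ := Pool.D2R.der_one (D + 1)
  obtain ⟨c₁, hc₁⟩ := pow_unbounded_of_one_lt K (one_lt_two (α := ℝ))
  refine ⟨c₀ + D₁ + c₁, ?_⟩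
  intro m c G H g a i n t δ e x U₀ U₁ hi hc hG hGd hH hHd hx hU₀ hU₁ hδ hagr hpl α hα
  obtain ⟨M, hM⟩ : ∃ M : ℝ, M = e + 2 ^ (c₀ + n * D₁) * δ := ⟨_, rfl⟩
  -- the plane is close to the graph of the closed label
  have hval : ∀ α β : ℝ, |α| ≤ 1 → |β| ≤ 1 → |(x + α • U₀ + β • U₁) (some (c i)) -
      eval (x + α • U₀ + β • U₁) H| ≤ M := by
    intro α β hα hβ
    obtain ⟨h1, h2⟩ := hpl α β hα hβ
    have hn : |(x + α • U₀ + β • U₁) none - t| ≤ 1 / 2 ^ a := by
      have e1 : (x + α • U₀ + β • U₁) none - t = α * (1 / 2 ^ a) := by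
        show x none + α * U₀ none + β * U₁ none - t = _
        rw [hx, hU₀, hU₁]
        ring
      rw [e1, abs_mul, abs_of_pos (show (0 : ℝ) < 1 / 2 ^ a by positivity)]
      calc |α| * (1 / 2 ^ a) ≤ 1 * (1 / 2 ^ a) :=
            mul_le_mul_of_nonneg_right hα (by positivity)
        _ = 1 / 2 ^ a := one_mul _
    have h3 := hdil (c := c) (i := i) (G := G) (Q := G i - H) (g := g) (a := a) (t := t)
      (M := δ) n (Nat.lt_succ_of_le hi) hc hG hGd (fun b b' hn hb => by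
        rw [map_sub, map_sub, hGd i b b' hn hb, hHd b b' hn hb])
      ((totalDegree_sub _ _).trans (max_le (hG i) hH)) hδ (fun b hb => by
        rw [map_sub]
        exact hagr b hb) _ hn h1
    rw [map_sub] at h3
    have e2 : (x + α • U₀ + β • U₁) (some (c i)) - eval (x + α • U₀ + β • U₁) H =
        ((x + α • U₀ + β • U₁) (some (c i)) - eval (x + α • U₀ + β • U₁) (G i)) +
        (eval (x + α • U₀ + β • U₁) (G i) - eval (x + α • U₀ + β • U₁) H) := by ring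
    rw [e2, hM]
    exact (abs_add_le _ _).trans (add_le_add h2 h3)
  have hM0 : 0 ≤ M := (abs_nonneg _).trans (hval 0 0 (by simp) (by simp))
  -- the derivative in the second direction
  obtain ⟨f, hf⟩ : ∃ f : Polynomial ℝ, f = slin (x + α • U₀) U₁ (some (c i)) -
    aeval (slin (x + α • U₀) U₁) H := ⟨_, rfl⟩
  have hfd : f.natDegree ≤ D + 1 := by
    rw [hf]
    refine (Polynomial.natDegree_sub_le _ _).trans (max_le ?_ ?_)
    · exact (slin_deg _ _ _).trans (by omega)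
    · exact (Pool.KBX.natDegree_aeval_le H _ (slin_deg _ _) hH).trans (by omega)
  have h1 : ∀ β : ℝ, f.eval β = (x + α • U₀ + β • U₁) (some (c i)) -
      eval (x + α • U₀ + β • U₁) H := by
    intro β
    rw [hf, Polynomial.eval_sub, slin_eval, (slin_dd _ _ _ _).1]
  have h2 : ∀ β : ℝ, f.derivative.eval β = U₁ (some (c i)) -
      dd H (x + α • U₀ + β • U₁) U₁ := by
    intro β
    rw [hf, Polynomial.derivative_sub, Polynomial.eval_sub, slin_der, Polynomial.eval_C,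
      (slin_dd _ _ _ _).2.1]
  have h4 := hder f M hfd (fun β hβ => by
    rw [h1]
    exact hval α β hα (by rw [abs_of_nonneg hβ.1]; exact hβ.2)) 0 (by simp)
  rw [h2, zero_smul, add_zero] at h4
  refine h4.trans ?_
  have h5 : K ≤ 2 ^ (c₀ + D₁ + c₁) :=
    hc₁.le.trans (pow_le_pow_right₀ (by norm_num) (by omega))
  have h6 : M ≤ e + 2 ^ ((c₀ + D₁ + c₁) * (n + 1)) * δ := by
    rw [hM]
    refine add_le_add le_rfl (mul_le_mul_of_nonneg_right (pow_le_pow_right₀ (by norm_num) ?_) hδ)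
    have e1 : (c₀ + D₁ + c₁) * (n + 1) = c₀ * n + D₁ * n + c₁ * n + c₀ + D₁ + c₁ := by ring
    have e2 : n * D₁ = D₁ * n := Nat.mul_comm _ _
    rw [e1, e2]
    omega
  exact (mul_le_mul_of_nonneg_right h5 hM0).trans
    (mul_le_mul_of_nonneg_left h6 (by positivity))

end Pool.NVX
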