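import Pool.Agent.H87.NV.End

/-!
# The end with two times

`tt_end`: the slope of `c j` has closed coefficients but the one of `c 0`, which varies little over
the samples of the ball.
-/

set_option autoImplicit false

namespace Pool.NVX

open Finset Real MvPolynomial
open Pool.Agent.H49.Ent Pool.Agent.H32.Dense Pool.STK Pool.KA Pool.KSAT Pool.K2S Pool.PB Pool.S6C
open Pool.GEN Pool.CHT

/-- [Q3] **The end with two times** (from `no_affq`, `q' = 1`, `κ' s 0` = the value of `ρ 0` at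
a representative of the window `s`). -/
theorem tt_end {m J : ℕ} {F : Fam m J} {c : ℕ → Fin m} {D D' a e h j : ℕ} {g : ℕ → ℕ}
    {κ M R d Y : ℝ} {B₀ B : F.Ω → Prop} {G : PtT F → ℕ → MvPolynomial (Option (Fin m)) ℝ}
    {H : LnT F → ℕ → MvPolynomial (Option (Fin m)) ℝ} (hj : 1 ≤ j)
    (hc : Set.InjOn c (Set.Iio (j + 1))) (hR : RelvF F c (j + 1) a a g D h κ B₀ G)
    (hL : ChOK F c (j + 1) (fun _ => D') a a e g B₀ G H) (hD : 1 ≤ D) (hB : Sub B B₀)
    (hP : κ * Pe F.p B₀ ≤ Pe F.p B) (hP0 : 0 < Pe F.p B) (ν : PtT F → F.Ω)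
    (ρ : PtT F → ℕ → ℝ) (ρ' : LnT F → ℕ → ℝ)
    (hν : ∀ ω, B ω → ptr F J (ν (ptr F J ω)) = ptr F J ω) (hR0 : 0 ≤ R)
    (hρ : ∀ ω, B ω → ∀ k < j, |ρ (ptr F J ω) k| ≤ R) (hM : 0 < M)
    (hcl : ∀ ω, B ω → ∀ k < j, 1 ≤ k → ρ (ptr F J ω) k = ρ' (slam F a ω) k)
    (hd : ∀ ω ω', B ω → B ω' → slam F a ω = slam F a ω' →
      |ρ (ptr F J ω) 0 - ρ (ptr F J ω') 0| ≤ d)
    (hv : ∀ ω, B ω → |(bd F ω (some (c j)) - bd F (ν (ptr F J ω)) (some (c j))) -
      ∑ k ∈ range j, ρ (ptr F J ω) k *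
        (bd F ω (some (c k)) - bd F (ν (ptr F J ω)) (some (c k)))| ≤ M * 2 ^ a)
    (hbox : ∀ ω, B ω → ∀ b, NBx c (G (ptr F J ω)) g a (F.t ω) 1 b →
      |b (some (c 0)) - (F.x ω (c 0) + (b none - F.t ω) * bd F ω (some (c 0)))| ≤ Y)
    (hY : 0 ≤ Y) (hdY : d * Y ≤ M) (hJ : j * R + 1 ≤ M * 2 ^ J)
    (hh : 2 ^ h * (3 * M) < 1 / 2 ^ g j) : False := by
  classical
  -- a sample
  obtain ⟨ω₀, hω₀⟩ : ∃ ω, B ω := by
    by_contra hcon
    push Not at hcon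
    have h1 : Pe F.p B = 0 := by
      unfold Pe
      exact Finset.sum_eq_zero fun ω _ => by simp [hcon ω]
    linarith
  -- the representatives of the windows
  have hrep : ∀ s : LnT F, ∃ ω' : F.Ω, (∃ ω, B ω ∧ slam F a ω = s) → B ω' ∧ slam F a ω' = s := by
    intro s
    by_cases h : ∃ ω, B ω ∧ slam F a ω = s
    · obtain ⟨ω, h1⟩ := h
      exact ⟨ω, fun _ => h1⟩
    · exact ⟨ω₀, fun h' => absurd h' h⟩
  choose rp hrp using hrep
  refine no_affq (F := F) (c := c) (D := D) (D' := D') (K := 0) (a := a) (w := a) (e := e)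
    (h := h) (j := j) (g := g) (κ := κ) (M := M) (R := R) (B₀ := B₀) (B := B) (G := G) (H := H)
    hc hR hL (by omega) hB hP hP0 ν ρ (fun _ => 1)
    (fun s k => Polynomial.C (if k = 0 then ρ (ptr F J (rp s)) 0 else ρ' s k))
    (fun s => by rw [Polynomial.natDegree_one]) (fun s k => by rw [Polynomial.natDegree_C])
    hν hR0 hρ hM hv ?_ hJ hh
  intro ω hω b hb
  obtain ⟨h1, h2⟩ := hrp (slam F a ω) ⟨ω, hω, rfl⟩
  have hb2 : NBx c (G (ptr F J ω)) g a (F.t ω) 1 b := ⟨hb.1, fun l hl => hb.2 l (by omega)⟩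
  have hV := hbox ω hω b hb2
  have hdd := hd ω _ hω h1 h2.symm
  rw [Polynomial.eval_one, sub_self, zero_mul, zero_sub, abs_neg]
  simp only [Polynomial.eval_C]
  rw [Finset.sum_eq_single_of_mem 0 (Finset.mem_range.2 (by omega)) (fun k hk hk0 => by
    rw [if_neg hk0, hcl ω hω k (Finset.mem_range.1 hk) (by omega), sub_self, zero_mul])]
  rw [if_pos rfl, abs_mul]
  exact (mul_le_mul hdd hV (abs_nonneg _) ((abs_nonneg _).trans hdd)).trans hdY

end Pool.NVX
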